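import Mathlib
import Pool.Agent.W522.Q.Defs
import Pool.Agent.W522.Q.Q2

/-!
# The `p`-adic closure of subgroups of simple abelian varieties with many endomorphisms

Let `A` be an abelian variety over the rational numbers, simple over the rational numbers, let `F`
be a field contained in `End_ℚ(A) ⊗ ℚ`, and `p` a prime number. Let `M = A(ℚ) ⊗ ℚ`, a vector space
over `F`, `Λ` the tangent space of `A` at the origin (a rational vector space of dimension
`n = dim A` on which `F` acts) and `log : M → ℚ_p ⊗ Λ` the `p`-adic logarithm. The `ℤ_p`-rank of the
closure in `A(ℚ_p)` of a subgroup of `A(ℚ)` generating the subspace `L` of `M` is the dimension of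
the `ℚ_p`-subspace spanned by `log L`: the logarithm on `A(ℚ_p)` has a finite kernel, and the image
of the closure is the `ℤ_p`-module generated by the logarithms of the subgroup.

1. If `L` is contained in a cyclic `F`-module `F P`, the closure has `ℤ_p`-rank equal to the rank of
   `L`. In general the rank of the closure is at least the rank of `L ∩ F P`, for all `P`.
2. If `dim_F (A(ℚ) ⊗ ℚ) ≤ 1`, then the assertion of the problem holds for `A`, all `p` and all
   subgroups of `A(ℚ)`.
3. If `[F : ℚ] = n` (abelian varieties of `GL_2`-type) and `r = dim_F (A(ℚ) ⊗ ℚ)`, then the closure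
   of every subgroup of rank greater than `r (n - 1)` is open in `A(ℚ_p)`. In particular the closure
   of `A(ℚ)` is open in `A(ℚ_p)` for every `p`, if `A(ℚ)` is infinite.

So the assertion of the problem holds in every dimension: for example for the simple factors `A_f`
of the Jacobians of the modular curves (`f` a newform of weight two) with `L(f, 1) ≠ 0` (a trivial
case) or `L(f, 1) = 0`, `L'(f, 1) ≠ 0`: by the theorems of Gross and Zagier and of Kolyvagin and
Logachev `A_f(ℚ) ⊗ ℚ` is then a vector space of dimension one over the field `F` of the
coefficients of `f`, and `n = [F : ℚ]`.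

The hypothesis `hA` is the `p`-adic analytic subgroup theorem (the `p`-adic form of the theorem of
Wüstholz, which for rational points is due to Bertrand and, in general, to Matev, Fuchs and Pham)
for `A`: a nonzero linear form with algebraic coefficients on the tangent space does not vanish at
the logarithm of a rational point `P` of infinite order, because the smallest algebraic subgroup
containing a multiple of `P` is defined over the rational numbers, so that it is `A`. The hypothesis
`hlog` says that the logarithm commutes with the endomorphisms. `Ω` is an algebraic closure of `ℚ_p`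
(or any algebraically closed field containing `ℚ_p`).

Idea of the proof: the map `x ↦ x log P` from `ℚ_p ⊗ F` to `ℚ_p ⊗ Λ` is injective, since its kernel
is an ideal; if it were not zero, the logarithm of `P` would be killed by a nonzero linear form that
is an eigenvector of `F`, and such forms exist with algebraic coefficients. So elements of `F` which
are linearly independent over `ℚ` give logarithms that are linearly independent over `ℚ_p`.
-/

namespace Pool.Agent.Results.MP_52423f_nt.RealMultiplicationRankOne

open Module TensorProduct Pool.Agent.W522.Q

/-- The rank of the `p`-adic closure of subgroups of abelian varieties with many endomorphisms. -/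
theorem result (p : ℕ) [Fact p.Prime]
    -- a field of endomorphisms of `A`, acting on `M = A(ℚ) ⊗ ℚ` and on the tangent space `Λ`
    {F : Type} [Field F] [NumberField F]
    {M : Type} [AddCommGroup M] [Module ℚ M] [Module F M] [IsScalarTower ℚ F M]
    [FiniteDimensional ℚ M]
    {Λ : Type} [AddCommGroup Λ] [Module ℚ Λ] [Module F Λ] [IsScalarTower ℚ F Λ]
    [FiniteDimensional ℚ Λ] [Nontrivial Λ]
    -- the `p`-adic logarithm
    (log : M →ₗ[ℚ] ℚ_[p] ⊗[ℚ] Λ) (hlog : ∀ (a : F) (P : M), log (a • P) = act p a (log P))
    -- the `p`-adic analytic subgroup theorem
    (Ω : Type) [Field Ω] [CharZero Ω] [IsAlgClosed Ω] [Algebra ℚ_[p] Ω]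
    (hA : AnalyticSubgroupTheorem Ω log) :
    (∀ (L : Submodule ℚ M) (P : M), (∀ x ∈ L, ∃ a : F, x = a • P) →
      closureRank log L = finrank ℚ L) ∧
    (∀ (L : Submodule ℚ M) (P : M), finrank ℚ
      (L ⊓ (Submodule.span F {P}).restrictScalars ℚ : Submodule ℚ M) ≤ closureRank log L) ∧
    (finrank F M ≤ 1 → ∀ L : Submodule ℚ M, closureRank log L = finrank ℚ L) ∧
    (finrank ℚ Λ = finrank ℚ F → ∀ L : Submodule ℚ M,
      finrank F M * (finrank ℚ F - 1) < finrank ℚ L → closureRank log L = finrank ℚ Λ) := by
  refine ⟨fun L P hL => rank_cyclic log hlog Ω hA L P hL, fun L P => ?_,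
    fun h1 L => rank_one log hlog Ω hA h1 L, fun hn L h => rank_large log hlog Ω hA hn L h⟩
  rw [← rank_cyclic log hlog Ω hA (L ⊓ (Submodule.span F {P}).restrictScalars ℚ) P]
  · exact rank_mono log inf_le_left
  · intro x hx
    obtain ⟨a, ha⟩ := Submodule.mem_span_singleton.1 hx.2
    exact ⟨a, ha.symm⟩

end Pool.Agent.Results.MP_52423f_nt.RealMultiplicationRankOne
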